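import Pool.Agent.Helper91.IP.L1

/-!
# Project IP, piece G1: total variation distance in terms of the trace of the heat kernel
-/

namespace Pool.Agent.Helper87.IP

open Finset Equiv Matrix
open Pool.Agent.Helper91.IP

variable {V : Type} [Fintype V] [DecidableEq V]

/-- IP-G1 (uses E2) -/
theorem tv_Kt (w : V → V → ℝ) (hw : ∀ x y, 0 ≤ w x y) {t : ℝ} (ht : 0 ≤ t) (s : Perm V) :
    (1 / 2) * ∑ s', |Kt w t s s' - 1 / (Nat.factorial (Fintype.card V) : ℝ)| ≤
      (1 / 2) * Real.sqrt (trace (Kt w (2 * t)) - 1) := by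
  have hN : (Fintype.card (Perm V) : ℝ) = (Nat.factorial (Fintype.card V) : ℝ) := by
    rw [Fintype.card_perm]
  rw [← hN]
  set N : ℝ := (Fintype.card (Perm V) : ℝ) with hNdef
  have hNpos : 0 < N := by
    rw [hNdef]
    exact_mod_cast Fintype.card_pos
  -- the diagonal entries
  have hdiag : ∀ s' : Perm V, Kt w (2 * t) s' s' = Kt w (2 * t) s s := by
    intro s'
    rw [Kt_trans w (2 * t) s' s', Kt_trans w (2 * t) s s, mul_inv_cancel, mul_inv_cancel]
  have htr : trace (Kt w (2 * t)) = N * Kt w (2 * t) s s := by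
    unfold Matrix.trace
    simp only [Matrix.diag_apply, hdiag, sum_const, card_univ, nsmul_eq_mul, hNdef]
  have hsq : ∑ s', (Kt w t s s') ^ 2 = Kt w (2 * t) s s := by
    rw [two_mul, Kt_add, Matrix.mul_apply]
    refine sum_congr rfl fun s' _ => ?_
    rw [(Kt_isSymm w t).apply s s', sq]
  have hrow := Kt_row w t s
  have hvar : ∑ s', (Kt w t s s' - 1 / N) ^ 2 = Kt w (2 * t) s s - 1 / N := by
    have h1 : ∀ s' : Perm V, (Kt w t s s' - 1 / N) ^ 2 =
        (Kt w t s s') ^ 2 - (2 / N) * Kt w t s s' + 1 / N ^ 2 := fun s' => by ring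
    simp only [h1, sum_add_distrib, sum_sub_distrib, ← mul_sum, hrow, hsq, sum_const, card_univ,
      nsmul_eq_mul, ← hNdef]
    field_simp
    ring
  refine mul_le_mul_of_nonneg_left ?_ (by norm_num)
  apply Real.le_sqrt_of_sq_le
  have hcs : (∑ s', |Kt w t s s' - 1 / N|) ^ 2 ≤ N * ∑ s', (Kt w t s s' - 1 / N) ^ 2 := by
    have := sq_sum_le_card_mul_sum_sq (s := (univ : Finset (Perm V)))
      (f := fun s' => |Kt w t s s' - 1 / N|)
    simpa only [sq_abs, card_univ] using this
  refine hcs.trans (le_of_eq ?_)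
  rw [hvar, htr]
  field_simp

end Pool.Agent.Helper87.IP
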