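import Pool.Agent.Helper91.IP.L1

/-!
# Project IP, piece G4: the relaxation time is at most the mixing time over log 2
-/

namespace Pool.Agent.Helper53.IP

open Pool.Agent.Helper91.IP
open Finset Equiv Matrix

attribute [local instance] Matrix.linftyOpNormedRing Matrix.linftyOpNormedAlgebra

section gen

variable {X : Type} [Fintype X] [DecidableEq X]

theorem g4_deriv_left (M : Matrix X X ℝ) (t : ℝ) (x y : X) :
    HasDerivAt (fun u : ℝ => NormedSpace.exp (u • M) x y) ((M * NormedSpace.exp (t • M)) x y) t := by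
  have h := hasDerivAt_exp_smul_const' (𝕂 := ℝ) M t
  exact (Matrix.entryLinearMap ℝ ℝ x y).toContinuousLinearMap.hasFDerivAt.comp_hasDerivAt t h

theorem g4_deriv_right (M : Matrix X X ℝ) (t : ℝ) (x y : X) :
    HasDerivAt (fun u : ℝ => NormedSpace.exp (u • M) x y) ((NormedSpace.exp (t • M) * M) x y) t := by
  have h := hasDerivAt_exp_smul_const (𝕂 := ℝ) M t
  exact (Matrix.entryLinearMap ℝ ℝ x y).toContinuousLinearMap.hasFDerivAt.comp_hasDerivAt t h

theorem g4_exp_eigen (M : Matrix X X ℝ) (u : X → ℝ) (c : ℝ) (h : ∀ x, ∑ y, M x y * u y = c * u x)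
    (t : ℝ) (x : X) : ∑ y, NormedSpace.exp (t • M) x y * u y = Real.exp (t * c) * u x := by
  have hd : ∀ s : ℝ, HasDerivAt
      (fun s : ℝ => Real.exp (-(s * c)) * ∑ y, NormedSpace.exp (s • M) x y * u y) 0 s := by
    intro s
    have h1 : HasDerivAt (fun s : ℝ => ∑ y, NormedSpace.exp (s • M) x y * u y)
        (∑ y, (NormedSpace.exp (s • M) * M) x y * u y) s := by
      apply HasDerivAt.fun_sum
      intro y _
      exact (g4_deriv_right M s x y).mul_const (u y)
    have h2 : HasDerivAt (fun s : ℝ => Real.exp (-(s * c))) (Real.exp (-(s * c)) * (-c)) s := by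
      have h3 : HasDerivAt (fun s : ℝ => -(s * c)) (-c) s := by
        have h3a : HasDerivAt (fun s : ℝ => s * (-c)) (-c) s := by
          simpa using (hasDerivAt_id s).mul_const (-c)
        exact h3a.congr_of_eventuallyEq (Filter.Eventually.of_forall fun s => by ring)
      exact h3.exp
    have h4 := h2.fun_mul h1
    have h5 : ∑ y, (NormedSpace.exp (s • M) * M) x y * u y =
        c * ∑ y, NormedSpace.exp (s • M) x y * u y := by
      simp only [Matrix.mul_apply, Finset.sum_mul]
      rw [Finset.sum_comm, Finset.mul_sum]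
      apply Finset.sum_congr rfl
      intro z _
      have h6 : ∑ y, NormedSpace.exp (s • M) x z * M z y * u y =
          NormedSpace.exp (s • M) x z * ∑ y, M z y * u y := by
        rw [Finset.mul_sum]
        apply Finset.sum_congr rfl
        intro y _
        ring
      rw [h6, h z]
      ring
    rw [h5] at h4
    exact h4.congr_deriv (by ring)
  have hc : (fun s : ℝ => Real.exp (-(s * c)) * ∑ y, NormedSpace.exp (s • M) x y * u y) t =
      (fun s : ℝ => Real.exp (-(s * c)) * ∑ y, NormedSpace.exp (s • M) x y * u y) 0 := by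
    exact is_const_of_deriv_eq_zero
      (f := fun s : ℝ => Real.exp (-(s * c)) * ∑ y, NormedSpace.exp (s • M) x y * u y)
      (fun s => (hd s).differentiableAt) (fun s => (hd s).deriv) t 0
  simp only [zero_mul, neg_zero, Real.exp_zero, one_mul, zero_smul, NormedSpace.exp_zero] at hc
  have h7 : ∑ y, (1 : Matrix X X ℝ) x y * u y = u x := by
    simp [Matrix.one_apply]
  rw [h7] at hc
  have h8 : Real.exp (t * c) * Real.exp (-(t * c)) = 1 := by
    rw [← Real.exp_add]; simp
  calc ∑ y, NormedSpace.exp (t • M) x y * u y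
      = (Real.exp (t * c) * Real.exp (-(t * c))) * ∑ y, NormedSpace.exp (t • M) x y * u y := by
        rw [h8, one_mul]
    _ = Real.exp (t * c) *
        (Real.exp (-(t * c)) * ∑ y, NormedSpace.exp (t • M) x y * u y) := by ring
    _ = Real.exp (t * c) * u x := by rw [hc]

theorem g4_genM_mulVec (r : X → X → ℝ) (u : X → ℝ) (x : X) :
    ∑ y, genM r x y * u y = -∑ y, r x y * (u x - u y) := by
  rw [← Finset.add_sum_erase _ _ (Finset.mem_univ x),
    ← Finset.add_sum_erase (f := fun y => r x y * (u x - u y)) _ (Finset.mem_univ x)]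
  have h1 : ∑ y ∈ univ.erase x, genM r x y * u y = ∑ y ∈ univ.erase x, r x y * u y := by
    apply Finset.sum_congr rfl
    intro y hy
    have hy' : x ≠ y := (Finset.ne_of_mem_erase hy).symm
    simp [genM, hy']
  rw [h1]
  simp only [genM, if_true, sub_self, mul_zero, zero_add, mul_sub, Finset.sum_sub_distrib,
    Finset.sum_mul, neg_mul]
  have h2 : ∑ y ∈ univ.erase x, r x y * u x = ∑ y ∈ univ.erase x, r x y * u x := rfl
  ring

theorem g4_quad {r : X → X → ℝ} (hs : ∀ x y, r x y = r y x) (g : X → ℝ) :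
    ∑ x, g x * ∑ y, genM r x y * g y = -((1 / 2) * ∑ x, ∑ y, r x y * (g x - g y) ^ 2) := by
  have h1 : ∑ x, g x * ∑ y, genM r x y * g y = -∑ x, ∑ y, r x y * (g x - g y) * g x := by
    rw [← Finset.sum_neg_distrib]
    apply Finset.sum_congr rfl
    intro x _
    rw [g4_genM_mulVec, mul_neg, Finset.mul_sum]
    congr 1
    apply Finset.sum_congr rfl
    intro y _
    ring
  have h2 : ∑ x, ∑ y, r x y * (g x - g y) * g x = ∑ x, ∑ y, r x y * (g y - g x) * g y := by
    rw [Finset.sum_comm]
    apply Finset.sum_congr rfl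
    intro x _
    apply Finset.sum_congr rfl
    intro y _
    rw [hs y x]
  have h3 : ∑ x, ∑ y, r x y * (g x - g y) ^ 2 =
      ∑ x, ∑ y, r x y * (g x - g y) * g x + ∑ x, ∑ y, r x y * (g y - g x) * g y := by
    rw [← Finset.sum_add_distrib]
    apply Finset.sum_congr rfl
    intro x _
    rw [← Finset.sum_add_distrib]
    apply Finset.sum_congr rfl
    intro y _
    ring
  rw [h1, h3, ← h2]
  ring

theorem g4_ker_symm {r : X → X → ℝ} (hs : ∀ x y, r x y = r y x) (t : ℝ) (x y : X) :
    ker r t x y = ker r t y x := by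
  have hM : (t • genM r).IsSymm := by
    apply Matrix.IsSymm.smul
    apply Matrix.IsSymm.ext
    intro i j
    by_cases hij : i = j
    · subst hij; rfl
    · have hji : j ≠ i := fun h => hij h.symm
      simp [genM, hij, hji, hs i j]
  have h := Matrix.IsSymm.exp hM
  exact h.apply y x

theorem g4_row (r : X → X → ℝ) (t : ℝ) (x : X) : ∑ y, ker r t x y = 1 := by
  have h := g4_exp_eigen (genM r) (fun _ => 1) 0 (fun x => by
    rw [g4_genM_mulVec]; simp) t x
  simpa [ker] using h

theorem g4_decay {r : X → X → ℝ} {γ : ℝ} (hg : Gap r γ) (x : X) {t : ℝ} (ht : 0 ≤ t) :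
    ∑ y, (ker r t y x - 1 / Fintype.card X) ^ 2 ≤
      Real.exp (-(2 * γ * t)) * ∑ y, ((1 : Matrix X X ℝ) y x - 1 / Fintype.card X) ^ 2 := by
  have hcard : (Fintype.card X : ℝ) ≠ 0 := by
    have : 0 < Fintype.card X := Fintype.card_pos_iff.2 ⟨x⟩
    positivity
  set n : ℝ := (Fintype.card X : ℝ) with hn
  have hd : ∀ s y, HasDerivAt (fun s : ℝ => ker r s y x - 1 / n)
      (∑ z, genM r y z * (ker r s z x - 1 / n)) s := by
    intro s y
    have h1 := (g4_deriv_left (genM r) s y x).sub_const (1 / n)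
    have h2 : (genM r * NormedSpace.exp (s • genM r)) y x =
        ∑ z, genM r y z * (ker r s z x - 1 / n) := by
      rw [Matrix.mul_apply]
      have h3 : ∑ z, genM r y z * (1 / n) = 0 := by
        rw [← Finset.sum_mul]
        have := g4_genM_mulVec r (fun _ => (1 : ℝ)) y
        simp at this
        rw [this]; simp
      simp only [mul_sub, Finset.sum_sub_distrib, h3, sub_zero]
      rfl
    rw [h2] at h1
    exact h1
  have hmean : ∀ s, ∑ y, (ker r s y x - 1 / n) = 0 := by
    intro s
    rw [Finset.sum_sub_distrib]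
    have h1 : ∑ y, ker r s y x = 1 := by
      rw [← g4_row r s x]
      exact Finset.sum_congr rfl fun y _ => g4_ker_symm hg.symm s y x
    rw [h1]
    simp [Finset.sum_const, Finset.card_univ, hn]
    rw [← hn] 
    field_simp
    simp
  have hF : ∀ s, HasDerivAt (fun s : ℝ => Real.exp (2 * γ * s) * ∑ y, (ker r s y x - 1 / n) ^ 2)
      (Real.exp (2 * γ * s) * (2 * γ * ∑ y, (ker r s y x - 1 / n) ^ 2 +
        2 * ∑ y, (ker r s y x - 1 / n) * ∑ z, genM r y z * (ker r s z x - 1 / n))) s := by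
    intro s
    have h1 : HasDerivAt (fun s : ℝ => ∑ y, (ker r s y x - 1 / n) ^ 2)
        (∑ y, 2 * ((ker r s y x - 1 / n) * ∑ z, genM r y z * (ker r s z x - 1 / n))) s := by
      apply HasDerivAt.fun_sum
      intro y _
      have := (hd s y).fun_pow 2
      exact this.congr_deriv (by push_cast; ring)
    have h2 : HasDerivAt (fun s : ℝ => Real.exp (2 * γ * s)) (Real.exp (2 * γ * s) * (2 * γ)) s := by
      have h3 : HasDerivAt (fun s : ℝ => 2 * γ * s) (2 * γ) s := by
        simpa using (hasDerivAt_id s).const_mul (2 * γ)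
      exact h3.exp
    have h4 := h2.fun_mul h1
    refine h4.congr_deriv ?_
    rw [← Finset.mul_sum]
    ring
  have hanti : AntitoneOn
      (fun s : ℝ => Real.exp (2 * γ * s) * ∑ y, (ker r s y x - 1 / n) ^ 2) (Set.Ici 0) := by
    apply antitoneOn_of_deriv_nonpos (convex_Ici 0)
    · exact fun s _ => (hF s).continuousAt.continuousWithinAt
    · exact fun s _ => (hF s).differentiableAt.differentiableWithinAt
    · intro s _
      rw [(hF s).deriv]
      have h1 := g4_quad hg.symm (fun y => ker r s y x - 1 / n)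
      have h2 := hg.gap (fun y => ker r s y x - 1 / n) (hmean s)
      rw [h1]
      apply mul_nonpos_of_nonneg_of_nonpos (Real.exp_pos _).le
      linarith
  have h := hanti (Set.mem_Ici.2 le_rfl) (Set.mem_Ici.2 ht) ht
  simp only [mul_zero, Real.exp_zero, one_mul] at h
  have h0 : ∀ y, ker r 0 y x = (1 : Matrix X X ℝ) y x := by
    intro y; simp [ker]
  simp only [h0] at h
  have h8 : Real.exp (-(2 * γ * t)) * Real.exp (2 * γ * t) = 1 := by
    rw [← Real.exp_add]; simp
  calc ∑ y, (ker r t y x - 1 / n) ^ 2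
      = (Real.exp (-(2 * γ * t)) * Real.exp (2 * γ * t)) * ∑ y, (ker r t y x - 1 / n) ^ 2 := by
        rw [h8, one_mul]
    _ = Real.exp (-(2 * γ * t)) *
        (Real.exp (2 * γ * t) * ∑ y, (ker r t y x - 1 / n) ^ 2) := by ring
    _ ≤ _ := mul_le_mul_of_nonneg_left h (Real.exp_pos _).le

theorem g4_nonempty {r : X → X → ℝ} {γ : ℝ} (hg : Gap r γ) :
    {t : ℝ | 0 ≤ t ∧ ∀ x, tv r t x ≤ 1 / 4}.Nonempty := by
  obtain ⟨t, ht0, ht⟩ : ∃ t : ℝ, 0 ≤ t ∧
      4 * ((Fintype.card X : ℝ) * (Fintype.card X : ℝ)) ≤ Real.exp (2 * γ * t) := by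
    have h1 : Filter.Tendsto (fun t : ℝ => Real.exp (2 * γ * t)) Filter.atTop Filter.atTop :=
      Real.tendsto_exp_atTop.comp (Filter.tendsto_id.const_mul_atTop (by have := hg.pos; linarith))
    obtain ⟨t, h2, h3⟩ := ((h1.eventually_ge_atTop
      (4 * ((Fintype.card X : ℝ) * (Fintype.card X : ℝ)))).and
        (Filter.eventually_ge_atTop 0)).exists
    exact ⟨t, h3, h2⟩
  refine ⟨t, ht0, fun x => ?_⟩
  have hcard0 : 0 < Fintype.card X := Fintype.card_pos_iff.2 ⟨x⟩
  have hcard : (0 : ℝ) < (Fintype.card X : ℝ) := by exact_mod_cast hcard0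
  have h1 := g4_decay hg x ht0
  have hF0 : ∑ y, ((1 : Matrix X X ℝ) y x - 1 / Fintype.card X) ^ 2 ≤ (Fintype.card X : ℝ) := by
    have h2 : ∀ y ∈ (univ : Finset X), ((1 : Matrix X X ℝ) y x - 1 / Fintype.card X) ^ 2 ≤ 1 := by
      intro y _
      have h3 : (0 : ℝ) ≤ 1 / Fintype.card X := by positivity
      have h4 : (1 : ℝ) / Fintype.card X ≤ 1 := by
        rw [div_le_one hcard]
        exact_mod_cast hcard0
      by_cases hyx : y = x
      · simp only [Matrix.one_apply, hyx, if_true]
        nlinarith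
      · simp only [Matrix.one_apply, hyx, if_false]
        nlinarith
    calc _ ≤ ∑ _y : X, (1 : ℝ) := Finset.sum_le_sum h2
      _ = _ := by simp [Finset.card_univ]
  have h5 : ∑ y, (ker r t y x - 1 / Fintype.card X) ^ 2 ≤
      Real.exp (-(2 * γ * t)) * (Fintype.card X : ℝ) :=
    h1.trans (mul_le_mul_of_nonneg_left hF0 (Real.exp_pos _).le)
  have h6 : (∑ y, |ker r t x y - 1 / Fintype.card X|) ^ 2 ≤
      (Fintype.card X : ℝ) * ∑ y, (ker r t y x - 1 / Fintype.card X) ^ 2 := by
    have h7 := sq_sum_le_card_mul_sum_sq (s := (univ : Finset X))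
      (f := fun y => |ker r t x y - 1 / Fintype.card X|)
    simp only [sq_abs, Finset.card_univ] at h7
    have h8 : ∑ y, (ker r t x y - 1 / (Fintype.card X : ℝ)) ^ 2 =
        ∑ y, (ker r t y x - 1 / (Fintype.card X : ℝ)) ^ 2 :=
      Finset.sum_congr rfl fun y _ => by rw [g4_ker_symm hg.symm t x y]
    rw [h8] at h7
    exact h7
  have h9 : (∑ y, |ker r t x y - 1 / Fintype.card X|) ^ 2 ≤ 1 / 4 := by
    have h10 : Real.exp (-(2 * γ * t)) * Real.exp (2 * γ * t) = 1 := by
      rw [← Real.exp_add]; simp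
    have h11 : Real.exp (-(2 * γ * t)) * (4 * ((Fintype.card X : ℝ) * (Fintype.card X : ℝ))) ≤ 1 := by
      calc _ ≤ Real.exp (-(2 * γ * t)) * Real.exp (2 * γ * t) :=
            mul_le_mul_of_nonneg_left ht (Real.exp_pos _).le
        _ = 1 := h10
    have h12 : (Fintype.card X : ℝ) * ∑ y, (ker r t y x - 1 / Fintype.card X) ^ 2 ≤
        (Fintype.card X : ℝ) * (Real.exp (-(2 * γ * t)) * (Fintype.card X : ℝ)) :=
      mul_le_mul_of_nonneg_left h5 hcard.le
    nlinarith
  have h13 : 0 ≤ ∑ y, |ker r t x y - 1 / (Fintype.card X : ℝ)| :=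
    Finset.sum_nonneg fun y _ => abs_nonneg _
  have h14 : ∑ y, |ker r t x y - 1 / (Fintype.card X : ℝ)| ≤ 1 / 2 := by
    nlinarith
  unfold tv
  linarith

end gen

variable {V : Type} [Fintype V] [DecidableEq V]

/-- IP-G4 (uses G3): the relaxation time is at most the mixing time over `log 2` -/
theorem trel_le_tmix (G : SimpleGraph V) [DecidableRel G.Adj] (hG : G.Connected)
    (hn : 2 ≤ Fintype.card V) : trel (srw G) * Real.log 2 ≤ tmix (srw G) := by
  obtain ⟨hg, u, hu0, hu1, hu⟩ := gap_srw G hG hn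
  set γ := gapR (srw G) with hγ
  have hγ0 : 0 < γ := hg.pos
  apply le_csInf (g4_nonempty hg)
  rintro t ⟨ht0, ht⟩
  have hV : Nonempty V := ⟨(Function.ne_iff.1 hu0).choose⟩
  obtain ⟨x, -, hx⟩ := Finset.exists_max_image (univ : Finset V) (fun x => |u x|)
    ⟨hV.some, Finset.mem_univ _⟩
  have hxpos : 0 < |u x| := by
    obtain ⟨z, hz⟩ := Function.ne_iff.1 hu0
    have h1 : 0 < |u z| := abs_pos.2 hz
    exact h1.trans_le (hx z (Finset.mem_univ _))
  have h1 : ∑ y, ker (srw G) t x y * u y = Real.exp (t * (-γ)) * u x := by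
    apply g4_exp_eigen
    intro z
    rw [g4_genM_mulVec, hu z]
    ring
  have h2 : ∑ y, (ker (srw G) t x y - 1 / (Fintype.card V : ℝ)) * u y =
      Real.exp (t * (-γ)) * u x := by
    simp only [sub_mul, Finset.sum_sub_distrib, ← Finset.mul_sum, hu1, mul_zero, sub_zero]
    exact h1
  have h3 : Real.exp (t * (-γ)) * |u x| ≤ (1 / 2) * |u x| := by
    calc Real.exp (t * (-γ)) * |u x| = |Real.exp (t * (-γ)) * u x| := by
          rw [abs_mul, abs_of_pos (Real.exp_pos _)]
      _ = |∑ y, (ker (srw G) t x y - 1 / (Fintype.card V : ℝ)) * u y| := by rw [h2]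
      _ ≤ ∑ y, |(ker (srw G) t x y - 1 / (Fintype.card V : ℝ)) * u y| :=
          Finset.abs_sum_le_sum_abs _ _
      _ ≤ ∑ y, |ker (srw G) t x y - 1 / (Fintype.card V : ℝ)| * |u x| := by
          apply Finset.sum_le_sum
          intro y _
          rw [abs_mul]
          exact mul_le_mul_of_nonneg_left (hx y (Finset.mem_univ _)) (abs_nonneg _)
      _ = (2 * tv (srw G) t x) * |u x| := by
          rw [← Finset.sum_mul]
          unfold tv
          ring
      _ ≤ (1 / 2) * |u x| := by
          apply mul_le_mul_of_nonneg_right _ (abs_nonneg _)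
          have := ht x
          linarith
  have h4 : Real.exp (t * (-γ)) ≤ 1 / 2 := le_of_mul_le_mul_right h3 hxpos
  have h5 : t * (-γ) ≤ Real.log (1 / 2) := by
    rw [← Real.log_exp (t * (-γ))]
    exact Real.log_le_log (Real.exp_pos _) h4
  have h6 : Real.log (1 / 2) = -Real.log 2 := by
    rw [one_div, Real.log_inv]
  rw [h6] at h5
  have h7 : Real.log 2 ≤ t * γ := by linarith
  unfold trel
  rw [← hγ, div_mul_eq_mul_div, one_mul, div_le_iff₀ hγ0]
  exact h7

end Pool.Agent.Helper53.IP
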