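import Pool.Agent.Helper91.IP.L2

/-!
# Project IP, piece C4: the level energy
-/

namespace Pool.Agent.Helper45.IP

open Finset Equiv Matrix
open Pool.Agent.Helper91.IP

variable {V : Type} [Fintype V] [DecidableEq V]

theorem nsq_eq_dot (f : Perm V → ℝ) : nsq f = f ⬝ᵥ f := by
  unfold nsq dotProduct
  exact sum_congr rfl fun s _ => by ring

theorem Fs_le_Vl {S : Finset V} {j : ℕ} (h : S.card ≤ j) : Fs S ≤ Vl V j :=
  le_iSup (fun S : {S : Finset V // S.card ≤ j} => Fs (S : Finset V)) ⟨S, h⟩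

/-- IP-C4 (uses C1, C2, C3, E1) -/
theorem level_energy {Q : V → V → ℝ} {ε : ℝ} (hQ : Smooth Q ε) (hε : 0 ≤ ε) (hε1 : ε ≤ 1)
    (j : ℕ) (hj : 1 ≤ j) {f : Perm V → ℝ} (hf : f ∈ Vl V j) (ho : Orth f (Vl V (j - 1))) :
    (j : ℝ) * ((1 - (j : ℝ) / Fintype.card V) * (1 - ε) - ε) * nsq f ≤ En Q f := by
  have hmem := level_decomp j hj hf ho
  have key := sup_energy (Am Q) (Am_isSymm Q)
    (fun S : {S : Finset V // S.card = j} => (Fs (S : Finset V) ⊓ Oc (Vl V (j - 1))))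
    (by
      rintro S u ⟨hu1, hu2⟩
      refine ⟨Am_Fs Q _ hu1, ?_⟩
      intro g hg
      have h1 : (∑ s, (Am Q *ᵥ u) s * g s) = u ⬝ᵥ (Am Q *ᵥ g) := by
        change (Am Q *ᵥ u) ⬝ᵥ g = _
        rw [dotProduct_comm, dotProduct_mulVec, ← mulVec_transpose, (Am_isSymm Q).eq,
          dotProduct_comm]
      change (∑ s, (Am Q *ᵥ u) s * g s) = 0
      rw [h1]
      exact hu2 _ (Am_Vl Q (j - 1) hg))
    ((j : ℝ) * ((1 - (j : ℝ) / Fintype.card V) * (1 - ε) - ε))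
    (by
      rintro ⟨S, hS⟩ u ⟨hu1, hu2⟩
      have h2 := pure_energy hQ hε hε1 S u hu1 (by
        intro i hi g hg
        refine hu2 g (Fs_le_Vl ?_ hg)
        rw [card_erase_of_mem hi, hS])
      rw [hS, nsq_eq_dot] at h2
      rw [Am_quad]
      exact h2)
    f hmem
  rw [Am_quad] at key
  rw [nsq_eq_dot]
  exact key

end Pool.Agent.Helper45.IP
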