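import Pool.Agent.Helper91.IP.L3

/-!
# Project IP, piece B2: smoothing
-/

namespace Pool.Agent.Helper26.IP

open Finset Equiv Matrix
open Pool.Agent.Helper91.IP

variable {V : Type} [Fintype V] [DecidableEq V]

/-- the kernel applied to a function -/
def b2_ap (R : V → V → ℝ) (u : V → ℝ) : V → ℝ := fun x => ∑ y, R x y * u y

theorem b2_quad (R : V → V → ℝ) (u v : V → ℝ) :
    ∑ x, ∑ y, u x * R x y * v y = ∑ x, u x * b2_ap R v x := by
  refine sum_congr rfl fun x _ => ?_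
  unfold b2_ap
  rw [mul_sum]
  exact sum_congr rfl fun y _ => by ring

theorem b2_ap_kmul (R : V → V → ℝ) (u : V → ℝ) :
    b2_ap (kmul R R) u = b2_ap R (b2_ap R u) := by
  funext x
  unfold b2_ap kmul
  calc ∑ y, (∑ z, R x z * R z y) * u y = ∑ y, ∑ z, R x z * (R z y * u y) := by
        refine sum_congr rfl fun y _ => ?_
        rw [sum_mul]
        exact sum_congr rfl fun z _ => by ring
    _ = ∑ z, ∑ y, R x z * (R z y * u y) := sum_comm
    _ = ∑ z, R x z * ∑ y, R z y * u y := by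
        refine sum_congr rfl fun z _ => ?_
        rw [mul_sum]

theorem b2_self_adj {R : V → V → ℝ} (hR : ∀ x y, R x y = R y x) (u v : V → ℝ) :
    ∑ x, u x * b2_ap R v x = ∑ x, b2_ap R u x * v x := by
  rw [← b2_quad, sum_comm]
  refine sum_congr rfl fun y _ => ?_
  unfold b2_ap
  rw [sum_mul]
  refine sum_congr rfl fun x _ => ?_
  rw [hR x y]
  ring

/-- Cauchy-Schwarz for a positive semidefinite form -/
theorem b2_cs {R : V → V → ℝ} (hR : ∀ x y, R x y = R y x)
    (hp : ∀ u : V → ℝ, 0 ≤ ∑ x, ∑ y, u x * R x y * u y) (u v : V → ℝ) :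
    (∑ x, u x * b2_ap R v x) ^ 2 ≤
      (∑ x, u x * b2_ap R u x) * ∑ x, v x * b2_ap R v x := by
  have key : ∀ c : ℝ, 0 ≤ (∑ x, v x * b2_ap R v x) * (c * c) +
      (2 * ∑ x, u x * b2_ap R v x) * c + ∑ x, u x * b2_ap R u x := by
    intro c
    have h := hp fun x => u x + c * v x
    rw [b2_quad] at h
    have h1 : b2_ap R (fun x => u x + c * v x) = fun x => b2_ap R u x + c * b2_ap R v x := by
      funext x
      unfold b2_ap
      rw [mul_sum, ← sum_add_distrib]
      exact sum_congr rfl fun y _ => by ring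
    rw [h1] at h
    have h2 : ∑ x, v x * b2_ap R u x = ∑ x, u x * b2_ap R v x := by
      rw [b2_self_adj hR]
      exact sum_congr rfl fun x _ => mul_comm _ _
    have h3 : ∑ x, (u x + c * v x) * (b2_ap R u x + c * b2_ap R v x) =
        ∑ x, u x * b2_ap R u x + c * (∑ x, u x * b2_ap R v x) + c * (∑ x, v x * b2_ap R u x) +
          c * c * ∑ x, v x * b2_ap R v x := by
      rw [mul_sum, mul_sum, mul_sum, ← sum_add_distrib, ← sum_add_distrib, ← sum_add_distrib]
      exact sum_congr rfl fun x _ => by ring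
    rw [h3, h2] at h
    linarith
  have hd := discrim_le_zero key
  unfold discrim at hd
  nlinarith

theorem b2_step {Q : V → V → ℝ} {ε : ℝ} (hQ : Smooth Q ε) (hε : 0 ≤ ε) :
    Smooth (kmul Q Q) (ε ^ 2) := by
  have hsq : ∀ u : V → ℝ, ∑ x, ∑ y, u x * kmul Q Q x y * u y = ∑ x, b2_ap Q u x ^ 2 := by
    intro u
    rw [b2_quad, b2_ap_kmul, b2_self_adj hQ.symm]
    exact sum_congr rfl fun x _ => by ring
  refine ⟨?_, ?_, ?_, ?_, ?_⟩
  · intro x y
    unfold kmul
    refine sum_congr rfl fun z _ => ?_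
    rw [hQ.symm x z, hQ.symm z y]
    ring
  · intro x y
    exact sum_nonneg fun z _ => mul_nonneg (hQ.nonneg _ _) (hQ.nonneg _ _)
  · intro x
    unfold kmul
    rw [sum_comm]
    have h1 : ∀ z, ∑ y, Q x z * Q z y = Q x z := fun z => by
      rw [← mul_sum, hQ.row, mul_one]
    simp only [h1]
    exact hQ.row x
  · intro u
    rw [hsq]
    exact sum_nonneg fun x _ => sq_nonneg _
  · intro u hu
    rw [hsq]
    set U : ℝ := ∑ x, u x ^ 2 with hU
    set A : ℝ := ∑ x, b2_ap Q u x ^ 2 with hA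
    have hU0 : 0 ≤ U := sum_nonneg fun x _ => sq_nonneg _
    have hA0 : 0 ≤ A := sum_nonneg fun x _ => sq_nonneg _
    have hz : ∑ x, b2_ap Q u x = 0 := by
      unfold b2_ap
      rw [sum_comm]
      have h1 : ∀ y, ∑ x, Q x y * u y = u y := fun y => by
        rw [← sum_mul]
        have h2 : ∑ x, Q x y = 1 := by
          rw [← hQ.row y]
          exact sum_congr rfl fun x _ => hQ.symm x y
        rw [h2, one_mul]
      simp only [h1]
      exact hu
    have h1 := b2_cs hQ.symm hQ.psd u (b2_ap Q u)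
    have h2 : ∑ x, u x * b2_ap Q (b2_ap Q u) x = A := by
      rw [b2_self_adj hQ.symm]
      exact sum_congr rfl fun x _ => by ring
    rw [h2] at h1
    have h3 : ∑ x, u x * b2_ap Q u x ≤ ε * U := by
      have := hQ.small u hu
      rwa [b2_quad] at this
    have h4 : ∑ x, b2_ap Q u x * b2_ap Q (b2_ap Q u) x ≤ ε * A := by
      have := hQ.small (b2_ap Q u) hz
      rwa [b2_quad] at this
    have h5 : 0 ≤ ∑ x, u x * b2_ap Q u x := by
      have := hQ.psd u
      rwa [b2_quad] at this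
    have h6 : 0 ≤ ∑ x, b2_ap Q u x * b2_ap Q (b2_ap Q u) x := by
      have := hQ.psd (b2_ap Q u)
      rwa [b2_quad] at this
    have h7 : A ^ 2 ≤ (ε * U) * (ε * A) :=
      h1.trans (mul_le_mul h3 h4 h6 (mul_nonneg hε hU0))
    rcases hA0.eq_or_lt with h8 | h8
    · rw [← h8]
      positivity
    · have h9 : A * A ≤ (ε ^ 2 * U) * A := by nlinarith
      exact le_of_mul_le_mul_right h9 h8

/-- iterated squares -/
def b2_it (P : V → V → ℝ) : ℕ → V → V → ℝ
  | 0 => P
  | k + 1 => kmul (b2_it P k) (b2_it P k)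

theorem b2_it_smooth {P : V → V → ℝ} {ρ : ℝ} (hP : Smooth P ρ) (hρ : 0 ≤ ρ) (k : ℕ) :
    Smooth (b2_it P k) (ρ ^ (2 ^ k)) := by
  induction k with
  | zero => simpa [b2_it] using hP
  | succ k ih =>
    have h := b2_step ih (pow_nonneg hρ _)
    rw [← pow_mul, ← pow_succ] at h
    exact h

theorem b2_it_En {P : V → V → ℝ} {ρ : ℝ} (hP : Smooth P ρ) (hρ : 0 ≤ ρ) (f : Perm V → ℝ)
    (k : ℕ) : En (b2_it P k) f ≤ 2 ^ k * En P f := by
  induction k with
  | zero => simp [b2_it]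
  | succ k ih =>
    have hs := b2_it_smooth hP hρ k
    have h := En_kmul_self (b2_it P k) hs.symm hs.nonneg hs.row f
    have h2 : En (b2_it P (k + 1)) f ≤ 2 * En (b2_it P k) f := h
    rw [pow_succ]
    linarith

/-- the lazy kernel -/
noncomputable def b2_P (w : V → V → ℝ) (τ : ℝ) : V → V → ℝ :=
  fun x y => (if x = y then 1 - τ * ∑ z, w x z else 0) + τ * w x y

theorem b2_P_quad {w : V → V → ℝ} (hw : ∀ x y, w x y = w y x) (τ : ℝ) (u : V → ℝ) :
    ∑ x, ∑ y, u x * b2_P w τ x y * u y =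
      ∑ x, u x ^ 2 - τ * ((1 / 2) * ∑ x, ∑ y, w x y * (u x - u y) ^ 2) := by
  have h1 : ∑ x, ∑ y, w x y * (u x - u y) ^ 2 =
      2 * ∑ x, (∑ z, w x z) * u x ^ 2 - 2 * ∑ x, ∑ y, w x y * (u x * u y) := by
    have e1 : ∑ x, ∑ y, w x y * u y ^ 2 = ∑ x, (∑ z, w x z) * u x ^ 2 := by
      rw [sum_comm]
      refine sum_congr rfl fun y _ => ?_
      rw [sum_mul]
      exact sum_congr rfl fun x _ => by rw [hw x y]
    have e2 : ∑ x, ∑ y, w x y * u x ^ 2 = ∑ x, (∑ z, w x z) * u x ^ 2 :=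
      sum_congr rfl fun x _ => by rw [sum_mul]
    have e3 : ∑ x, ∑ y, w x y * (u x - u y) ^ 2 =
        ∑ x, ∑ y, w x y * u x ^ 2 + ∑ x, ∑ y, w x y * u y ^ 2 -
          2 * ∑ x, ∑ y, w x y * (u x * u y) := by
      simp only [mul_sum, ← sum_add_distrib, ← sum_sub_distrib]
      exact sum_congr rfl fun x _ => sum_congr rfl fun y _ => by ring
    rw [e3, e1, e2]
    ring
  have h2 : ∑ x, ∑ y, u x * b2_P w τ x y * u y =
      ∑ x, u x ^ 2 - τ * ∑ x, (∑ z, w x z) * u x ^ 2 + τ * ∑ x, ∑ y, w x y * (u x * u y) := by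
    have e1 : ∀ x, ∑ y, u x * b2_P w τ x y * u y =
        (u x ^ 2 - τ * ((∑ z, w x z) * u x ^ 2)) + τ * ∑ y, w x y * (u x * u y) := by
      intro x
      have e2 : ∀ y, u x * b2_P w τ x y * u y =
          (if x = y then (1 - τ * ∑ z, w x z) * (u x * u y) else 0) +
            τ * (w x y * (u x * u y)) := by
        intro y
        unfold b2_P
        split_ifs <;> ring
      rw [sum_congr rfl fun y _ => e2 y, sum_add_distrib, sum_ite_eq, if_pos (mem_univ x),
        ← mul_sum]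
      ring
    rw [sum_congr rfl fun x _ => e1 x, sum_add_distrib, sum_sub_distrib, ← mul_sum, ← mul_sum]
  rw [h2, h1]
  ring

theorem b2_P_En (w : V → V → ℝ) (τ : ℝ) (f : Perm V → ℝ) : En (b2_P w τ) f = τ * En w f := by
  have hd : ∀ x, dif f x x = 0 := by
    intro x
    unfold dif
    refine sum_eq_zero fun s _ => ?_
    rw [swap_self]
    have : (Equiv.refl V : Perm V) * s = s := by
      ext i
      rfl
    rw [this]
    ring
  unfold En
  rw [mul_left_comm]
  congr 1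
  rw [mul_sum]
  refine sum_congr rfl fun x _ => ?_
  rw [mul_sum]
  refine sum_congr rfl fun y _ => ?_
  unfold b2_P
  split_ifs with h
  · subst h
    rw [hd]
    ring
  · ring

theorem b2_P_smooth {w : V → V → ℝ} {γ : ℝ} (h : Gap w γ) {τ : ℝ} (hτ : 0 ≤ τ)
    (hτ2 : 2 * τ * (∑ x, ∑ y, w x y) ≤ 1) : Smooth (b2_P w τ) (1 - τ * γ) := by
  have hdeg : ∀ x, 0 ≤ ∑ z, w x z := fun x => sum_nonneg fun z _ => h.nonneg x z
  have hD : ∀ x, ∑ z, w x z ≤ ∑ x, ∑ y, w x y := fun x =>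
    single_le_sum (f := fun x => ∑ y, w x y) (fun x _ => hdeg x) (mem_univ x)
  refine ⟨?_, ?_, ?_, ?_, ?_⟩
  · intro x y
    unfold b2_P
    by_cases hxy : x = y
    · subst hxy
      rfl
    · rw [if_neg hxy, if_neg (Ne.symm hxy), h.symm x y]
  · intro x y
    unfold b2_P
    have h1 := mul_nonneg hτ (h.nonneg x y)
    split_ifs
    · have h2 := mul_le_mul_of_nonneg_left (hD x) hτ
      have h3 := mul_nonneg hτ (hdeg x)
      linarith
    · linarith
  · intro x
    unfold b2_P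
    rw [sum_add_distrib, sum_ite_eq, if_pos (mem_univ x), ← mul_sum]
    ring
  · intro u
    rw [b2_P_quad h.symm]
    have h1 : (1 / 2) * ∑ x, ∑ y, w x y * (u x - u y) ^ 2 ≤
        2 * ((∑ x, ∑ y, w x y) * ∑ x, u x ^ 2) := by
      have e1 : ∑ x, ∑ y, w x y * (u x - u y) ^ 2 ≤
          ∑ x, ∑ y, (2 * (w x y * u x ^ 2) + 2 * (w x y * u y ^ 2)) := by
        refine sum_le_sum fun x _ => sum_le_sum fun y _ => ?_
        have := mul_nonneg (h.nonneg x y) (sq_nonneg (u x + u y))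
        nlinarith
      have e2 : ∑ x, ∑ y, w x y * u y ^ 2 = ∑ x, ∑ y, w x y * u x ^ 2 := by
        rw [sum_comm]
        exact sum_congr rfl fun y _ => sum_congr rfl fun x _ => by rw [h.symm x y]
      have e3 : ∑ x, ∑ y, w x y * u x ^ 2 ≤ (∑ x, ∑ y, w x y) * ∑ x, u x ^ 2 := by
        rw [mul_sum]
        refine sum_le_sum fun x _ => ?_
        rw [← sum_mul]
        exact mul_le_mul_of_nonneg_right (hD x) (sq_nonneg _)
      have e4 : ∑ x, ∑ y, (2 * (w x y * u x ^ 2) + 2 * (w x y * u y ^ 2)) =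
          2 * ∑ x, ∑ y, w x y * u x ^ 2 + 2 * ∑ x, ∑ y, w x y * u y ^ 2 := by
        simp only [sum_add_distrib, mul_sum]
      rw [e4, e2] at e1
      linarith
    have h2 := mul_le_mul_of_nonneg_left h1 hτ
    have h3 : 0 ≤ ∑ x, u x ^ 2 := sum_nonneg fun x _ => sq_nonneg _
    have h4 := mul_le_mul_of_nonneg_right hτ2 h3
    linarith
  · intro u hu
    rw [b2_P_quad h.symm]
    have h1 := mul_le_mul_of_nonneg_left (h.gap u hu) hτ
    linarith

/-- IP-B2 (uses B1) -/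
theorem smoothing {w : V → V → ℝ} {γ : ℝ} (h : Gap w γ) {t : ℝ} (ht : 0 < t) :
    ∃ Q : V → V → ℝ, Smooth Q (Real.exp (-(t * γ))) ∧ ∀ f : Perm V → ℝ, En Q f ≤ t * En w f := by
  have hD0 : 0 ≤ ∑ x, ∑ y, w x y := sum_nonneg fun x _ => sum_nonneg fun y _ => h.nonneg x y
  obtain ⟨N, hN⟩ : ∃ N : ℕ, 2 * t * (∑ x, ∑ y, w x y) + t * γ < (2 : ℝ) ^ N :=
    pow_unbounded_of_one_lt _ (by norm_num)
  have hγ := h.pos
  have h2N : (0 : ℝ) < 2 ^ N := by positivity
  have hτ : 0 ≤ t / 2 ^ N := by positivity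
  have htg : 0 < t * γ := mul_pos ht hγ
  have hτ2 : 2 * (t / 2 ^ N) * (∑ x, ∑ y, w x y) ≤ 1 := by
    have e : 2 * (t / 2 ^ N) * (∑ x, ∑ y, w x y) = (2 * t * (∑ x, ∑ y, w x y)) / 2 ^ N := by ring
    rw [e, div_le_one h2N]
    linarith
  have hP := b2_P_smooth h hτ hτ2
  have e1 : t / 2 ^ N * γ = t * γ / 2 ^ N := by ring
  have h0 : 0 ≤ 2 * t * (∑ x, ∑ y, w x y) := by positivity
  have hle : t * γ ≤ 2 ^ N := by linarith
  have hρ : 0 ≤ 1 - t / 2 ^ N * γ := by
    rw [e1, sub_nonneg, div_le_one h2N]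
    exact hle
  have hs := b2_it_smooth hP hρ N
  have hexp : (1 - t / 2 ^ N * γ) ^ (2 ^ N) ≤ Real.exp (-(t * γ)) := by
    rw [e1]
    have h1 := Real.one_sub_div_pow_le_exp_neg (n := 2 ^ N) (t := t * γ)
      (by push_cast; exact hle)
    push_cast at h1
    exact h1
  refine ⟨b2_it (b2_P w (t / 2 ^ N)) N, ⟨hs.symm, hs.nonneg, hs.row, hs.psd, ?_⟩, ?_⟩
  · intro u hu
    refine (hs.small u hu).trans ?_
    exact mul_le_mul_of_nonneg_right hexp (sum_nonneg fun x _ => sq_nonneg _)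
  · intro f
    refine (b2_it_En hP hρ f N).trans (le_of_eq ?_)
    rw [b2_P_En]
    field_simp

end Pool.Agent.Helper26.IP
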