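import Pool.Agent.Helper91.IP.L4

/-!
# Project IP, piece C6: the level energy for the process itself
-/

namespace Pool.Agent.Helper39.IP

open Pool.Agent.Helper91.IP
open Finset Equiv Matrix

variable {V : Type} [Fintype V] [DecidableEq V]

theorem nsq_nonneg' (f : Perm V → ℝ) : 0 ≤ nsq f := by
  unfold nsq
  exact sum_nonneg fun s _ => sq_nonneg _

theorem log16_le : 14 * Real.log 16 ≤ 40 := by
  have h1 : Real.log 16 = 4 * Real.log 2 := by
    rw [show (16 : ℝ) = 2 ^ 4 by norm_num, Real.log_pow]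
    norm_num
  have h2 := Real.log_two_lt_d9
  rw [h1]
  linarith

/-- IP-C6 (uses C4, B2): the level energy for the process itself -/
theorem level_energy_w {w : V → V → ℝ} {γ : ℝ} (h : Gap w γ) (hn : 4 ≤ Fintype.card V) (j : ℕ)
    (hj : 1 ≤ j) (hj2 : j + Fintype.card V / 4 ≤ Fintype.card V) {f : Perm V → ℝ}
    (hf : f ∈ Vl V j) (ho : Orth f (Vl V (j - 1))) :
    (γ / 40) * j * nsq f ≤ En w f := by
  have hγ : 0 < γ := h.pos
  have hl : 0 < Real.log 16 := Real.log_pos (by norm_num)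
  have ht : 0 < Real.log 16 / γ := div_pos hl hγ
  obtain ⟨Q, hQ, hE⟩ := smoothing h ht
  have he : Real.exp (-(Real.log 16 / γ * γ)) = 1 / 16 := by
    rw [div_mul_cancel₀ _ hγ.ne', Real.exp_neg, Real.exp_log (by norm_num)]
    norm_num
  rw [he] at hQ
  have h1 := level_energy hQ (by norm_num) (by norm_num) j hj hf ho
  have h2 := hE f
  have hN := nsq_nonneg' f
  have hL := log16_le
  -- the fraction `j / n`
  have h7 : 7 * j + Fintype.card V ≤ 7 * Fintype.card V := by omega
  have h7' : (7 : ℝ) * j + Fintype.card V ≤ 7 * Fintype.card V := by exact_mod_cast h7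
  have hnpos : (0 : ℝ) < Fintype.card V := by
    have : (4 : ℝ) ≤ Fintype.card V := by exact_mod_cast hn
    linarith
  have hfrac : (j : ℝ) / Fintype.card V ≤ 6 / 7 := by
    rw [div_le_iff₀ hnpos]
    linarith
  have hjpos : (0 : ℝ) ≤ j := Nat.cast_nonneg j
  have h3 : (1 : ℝ) / 14 ≤ (1 - (j : ℝ) / Fintype.card V) * (1 - 1 / 16) - 1 / 16 := by
    linarith
  have h4 : (j : ℝ) * (1 / 14) * nsq f ≤
      (j : ℝ) * ((1 - (j : ℝ) / Fintype.card V) * (1 - 1 / 16) - 1 / 16) * nsq f :=
    mul_le_mul_of_nonneg_right (mul_le_mul_of_nonneg_left h3 hjpos) hN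
  have h5 : (j : ℝ) * (1 / 14) * nsq f ≤ Real.log 16 / γ * En w f := h4.trans (h1.trans h2)
  -- multiply by `14 γ / (14 log 16)`
  have h6 : (j : ℝ) * (1 / 14) * nsq f * γ ≤ Real.log 16 * En w f := by
    have := mul_le_mul_of_nonneg_right h5 hγ.le
    calc (j : ℝ) * (1 / 14) * nsq f * γ ≤ Real.log 16 / γ * En w f * γ := this
      _ = Real.log 16 * En w f := by field_simp
  have hEw : 0 ≤ En w f := by
    by_contra hcon
    push Not at hcon
    have h8 : Real.log 16 * En w f < 0 := mul_neg_of_pos_of_neg hl hcon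
    have h9 : 0 ≤ (j : ℝ) * (1 / 14) * nsq f * γ := by positivity
    linarith
  have h10 : (14 * Real.log 16) * En w f ≤ 40 * En w f := mul_le_mul_of_nonneg_right hL hEw
  have h11 : (γ / 40) * j * nsq f = ((j : ℝ) * (1 / 14) * nsq f * γ) * (14 / 40) := by ring
  rw [h11]
  linarith

end Pool.Agent.Helper39.IP
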