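import Pool.Agent.Helper91.IP.L4

namespace Pool.Agent.Helper38.IP

open Finset Equiv Matrix Pool.Agent.Helper91.IP

variable {V : Type} [Fintype V] [DecidableEq V]

theorem quad_shift {Q : V → V → ℝ} (hs : ∀ x y, Q x y = Q y x) (hr : ∀ x, ∑ y, Q x y = 1)
    (e : V → ℝ) (c : ℝ) :
    ∑ x, ∑ y, (e x - c) * Q x y * (e y - c) =
      ∑ x, ∑ y, e x * Q x y * e y - 2 * c * ∑ x, e x + c ^ 2 * Fintype.card V := by
  have h1 : ∀ x y, (e x - c) * Q x y * (e y - c) =
      e x * Q x y * e y - c * (e x * Q x y) - c * (e y * Q y x) + c ^ 2 * Q x y := by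
    intro x y
    rw [hs y x]
    ring
  have h2 : ∑ x, ∑ y, e x * Q x y = ∑ x, e x := by
    refine sum_congr rfl fun x _ => ?_
    rw [← mul_sum, hr, mul_one]
  have h3 : ∑ x, ∑ y, e y * Q y x = ∑ x, e x := by
    rw [sum_comm]
    exact h2
  have h4 : ∑ x, ∑ y, Q x y = Fintype.card V := by
    simp only [hr]
    simp
  have e1 : ∑ x, ∑ y, (e x - c) * Q x y * (e y - c) = ∑ x, ∑ y, e x * Q x y * e y
      - c * (∑ x, ∑ y, e x * Q x y) - c * (∑ x, ∑ y, e y * Q y x) + c ^ 2 * ∑ x, ∑ y, Q x y := by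
    simp only [h1, sum_add_distrib, sum_sub_distrib, mul_sum]
  rw [e1, h2, h3, h4]
  ring

theorem smooth_entry {Q : V → V → ℝ} {ε : ℝ} (hQ : Smooth Q ε) (hn : 2 ≤ Fintype.card V)
    (x y : V) (hxy : x ≠ y) :
    1 / (Fintype.card V : ℝ) - ε * (1 - 1 / (Fintype.card V : ℝ)) ≤ Q x y := by
  have hn0 : (0 : ℝ) < Fintype.card V := by
    have : 0 < Fintype.card V := by omega
    exact_mod_cast this
  have hd : ∀ z : V, ∑ a, (if a = z then (1 : ℝ) else 0) = 1 := by
    intro z
    simp
  have hq : ∀ z : V, ∑ a, ∑ b, (if a = z then (1 : ℝ) else 0) * Q a b *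
      (if b = z then (1 : ℝ) else 0) = Q z z := by
    intro z
    simp
  have hdiag : ∀ z : V, Q z z - 1 / (Fintype.card V : ℝ) ≤
      ε * (1 - 1 / (Fintype.card V : ℝ)) := by
    intro z
    have h0 := hQ.small (fun a => (if a = z then (1 : ℝ) else 0) - 1 / (Fintype.card V : ℝ)) (by
      rw [sum_sub_distrib, hd]
      simp
      field_simp
      simp)
    have h1 := quad_shift hQ.symm hQ.row (fun a => (if a = z then (1 : ℝ) else 0))
      (1 / (Fintype.card V : ℝ))
    rw [hd, hq] at h1
    rw [h1] at h0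
    have h2 : ∑ a, ((if a = z then (1 : ℝ) else 0) - 1 / (Fintype.card V : ℝ)) ^ 2 =
        1 - 1 / (Fintype.card V : ℝ) := by
      have h3 : ∀ a : V, ((if a = z then (1 : ℝ) else 0) - 1 / (Fintype.card V : ℝ)) ^ 2 =
          (1 - 2 / (Fintype.card V : ℝ)) * (if a = z then (1 : ℝ) else 0) +
            (1 / (Fintype.card V : ℝ)) ^ 2 := by
        intro a
        split_ifs <;> ring
      simp only [h3, sum_add_distrib, ← mul_sum, hd]
      simp
      field_simp
      ring
    rw [h2] at h0
    have h4 : Q z z - 1 / (Fintype.card V : ℝ) = Q z z - 2 * (1 / (Fintype.card V : ℝ)) * 1 +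
        (1 / (Fintype.card V : ℝ)) ^ 2 * Fintype.card V := by
      field_simp
      ring
    rw [h4]
    exact h0
  have hp := hQ.psd (fun a => ((if a = x then (1 : ℝ) else 0) + (if a = y then (1 : ℝ) else 0)) -
    2 / (Fintype.card V : ℝ))
  have h1 := quad_shift hQ.symm hQ.row
    (fun a => ((if a = x then (1 : ℝ) else 0) + (if a = y then (1 : ℝ) else 0)))
    (2 / (Fintype.card V : ℝ))
  rw [h1] at hp
  have h2 : ∑ a, ((if a = x then (1 : ℝ) else 0) + (if a = y then (1 : ℝ) else 0)) = 2 := by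
    rw [sum_add_distrib, hd, hd]
    norm_num
  have h3 : ∑ a, ∑ b, ((if a = x then (1 : ℝ) else 0) + (if a = y then (1 : ℝ) else 0)) * Q a b *
      ((if b = x then (1 : ℝ) else 0) + (if b = y then (1 : ℝ) else 0)) =
      Q x x + Q x y + (Q y x + Q y y) := by
    simp [add_mul, mul_add, sum_add_distrib]
    ring
  rw [h2, h3, hQ.symm y x] at hp
  have h4 := hdiag x
  have h5 := hdiag y
  have h6 : Q x x + Q x y + (Q x y + Q y y) - 2 * (2 / (Fintype.card V : ℝ)) * 2 +
      (2 / (Fintype.card V : ℝ)) ^ 2 * Fintype.card V =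
      Q x x + Q y y + 2 * Q x y - 4 * (1 / (Fintype.card V : ℝ)) := by
    field_simp
    ring
  rw [h6] at hp
  linarith

/-- IP-D3 (uses B2) -/
theorem complete_compare {w : V → V → ℝ} {γ : ℝ} (h : Gap w γ) (hn : 2 ≤ Fintype.card V)
    (f : Perm V → ℝ) :
    γ / (2 * Real.log (2 * Fintype.card V)) * En (fun _ _ => 1 / (Fintype.card V : ℝ)) f
      ≤ En w f := by
  have hn2 : (2 : ℝ) ≤ Fintype.card V := by exact_mod_cast hn
  have hL : 0 < Real.log (2 * Fintype.card V) := Real.log_pos (by linarith)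
  have ht : 0 < Real.log (2 * Fintype.card V) / γ := div_pos hL h.pos
  obtain ⟨Q, hQ, hE⟩ := smoothing h ht
  have he : Real.exp (-(Real.log (2 * Fintype.card V) / γ * γ)) = 1 / (2 * Fintype.card V) := by
    rw [div_mul_cancel₀ _ h.pos.ne', Real.exp_neg, Real.exp_log (by linarith), one_div]
  rw [he] at hQ
  have hent : ∀ x y, x ≠ y → 1 / (2 * (Fintype.card V : ℝ)) ≤ Q x y := by
    intro x y hxy
    refine le_trans ?_ (smooth_entry hQ hn x y hxy)
    have h1 : (0 : ℝ) ≤ 1 / (2 * Fintype.card V) := by positivity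
    have h2 : 1 / (2 * (Fintype.card V : ℝ)) * (1 - 1 / (Fintype.card V : ℝ)) ≤
        1 / (2 * (Fintype.card V : ℝ)) := by
      have : (0 : ℝ) ≤ 1 / (Fintype.card V : ℝ) := by positivity
      nlinarith
    have h3 : 1 / (Fintype.card V : ℝ) = 2 * (1 / (2 * (Fintype.card V : ℝ))) := by
      have : (Fintype.card V : ℝ) ≠ 0 := by linarith
      field_simp
    linarith
  have hcomp : En (fun _ _ => 1 / (Fintype.card V : ℝ)) f ≤ 2 * En Q f := by
    unfold En
    have : ∑ x, ∑ y, 1 / (Fintype.card V : ℝ) * dif f x y ≤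
        2 * ∑ x, ∑ y, Q x y * dif f x y := by
      rw [mul_sum]
      refine sum_le_sum fun x _ => ?_
      rw [mul_sum]
      refine sum_le_sum fun y _ => ?_
      by_cases hxy : x = y
      · subst hxy
        have : dif f x x = 0 := by
          unfold dif
          refine sum_eq_zero fun s _ => ?_
          have h7 : swap x x * s = s := by
            rw [swap_self]
            exact one_mul s
          rw [h7, sub_self]
          norm_num
        rw [this]
        simp
      · have h0 : 0 ≤ dif f x y := sum_nonneg fun s _ => sq_nonneg _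
        have h1 := hent x y hxy
        have h3 : 1 / (Fintype.card V : ℝ) = 2 * (1 / (2 * (Fintype.card V : ℝ))) := by
          have : (Fintype.card V : ℝ) ≠ 0 := by linarith
          field_simp
        rw [h3]
        nlinarith
    nlinarith
  have h1 := hE f
  have h2 : En (fun _ _ => 1 / (Fintype.card V : ℝ)) f ≤
      2 * (Real.log (2 * Fintype.card V) / γ * En w f) := by linarith
  rw [div_mul_eq_mul_div, div_le_iff₀ (by positivity)]
  calc γ * En (fun _ _ => 1 / (Fintype.card V : ℝ)) f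
      ≤ γ * (2 * (Real.log (2 * Fintype.card V) / γ * En w f)) :=
        mul_le_mul_of_nonneg_left h2 h.pos.le
    _ = En w f * (2 * Real.log (2 * Fintype.card V)) := by
        have h5 := h.pos.ne'
        have h6 : γ * (2 * (Real.log (2 * Fintype.card V) / γ * En w f)) =
            (γ / γ) * (En w f * (2 * Real.log (2 * Fintype.card V))) := by ring
        rw [h6, div_self h5, one_mul]

end Pool.Agent.Helper38.IP
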