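import Pool.Agent.Helper91.IP.L6

/-!
# Project IP, piece F2: `trace_final`
-/

namespace Pool.Agent.Helper57.IP

open Finset Equiv Matrix Pool.Agent.Helper91.IP

/-- `(1 + n x)^n ≤ exp (n^2 x)` -/
private theorem pow_le_exp (n : ℕ) {x : ℝ} (hx : 0 ≤ x) :
    (1 + (n : ℝ) * x) ^ n ≤ Real.exp ((n : ℝ) ^ 2 * x) := by
  have h1 : 1 + (n : ℝ) * x ≤ Real.exp ((n : ℝ) * x) := by
    have := Real.add_one_le_exp ((n : ℝ) * x)
    linarith
  have h0 : (0 : ℝ) ≤ 1 + (n : ℝ) * x := by positivity
  calc (1 + (n : ℝ) * x) ^ n ≤ Real.exp ((n : ℝ) * x) ^ n := pow_le_pow_left₀ h0 h1 n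
    _ = Real.exp ((n : ℝ) ^ 2 * x) := by
      rw [← Real.exp_nat_mul]
      congr 1
      ring

private theorem exp_small {x : ℝ} (h0 : 0 ≤ x) (h : x ≤ 1 / 16) : Real.exp x ≤ 1 + 1 / 8 := by
  have h2 := Real.exp_bound_div_one_sub_of_interval' (x := x)
  by_cases hx : x = 0
  · subst hx; simp
  · have hpos : 0 < x := lt_of_le_of_ne h0 (Ne.symm hx)
    have h3 := h2 hpos (by linarith)
    have h4 : 1 / (1 - x) ≤ 1 + 1 / 8 := by
      rw [div_le_iff₀ (by linarith)]
      nlinarith
    linarith

private theorem exists_blocks (V : Type) [Fintype V] [DecidableEq V] :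
    ∃ R : Fin 4 → Finset V, (∀ i j, i ≠ j → Disjoint (R i) (R j)) ∧
      ∀ i, (R i).card = Fintype.card V / 4 := by
  classical
  have hc : Fintype.card (Fin 4 × Fin (Fintype.card V / 4)) ≤ Fintype.card V := by
    rw [Fintype.card_prod, Fintype.card_fin, Fintype.card_fin]
    omega
  obtain ⟨f⟩ := Function.Embedding.nonempty_of_card_le hc
  refine ⟨fun i => univ.image fun a => f (i, a), ?_, ?_⟩
  · intro i j hij
    rw [Finset.disjoint_left]
    intro x hx hy
    simp only [mem_image, mem_univ, true_and] at hx hy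
    obtain ⟨a, ha⟩ := hx
    obtain ⟨b, hb⟩ := hy
    have := f.injective (ha.trans hb.symm)
    exact hij (congrArg Prod.fst this)
  · intro i
    rw [Finset.card_image_of_injective]
    · simp
    · intro a b hab
      have := f.injective hab
      exact congrArg Prod.snd this

/-- case `n ≥ 4` -/
private theorem large {V : Type} [Fintype V] [DecidableEq V] {w : V → V → ℝ} {γ : ℝ}
    (h : Gap w γ) (hn : 4 ≤ Fintype.card V) {t : ℝ}
    (ht : 200 * (1 / γ) * Real.log (Fintype.card V) ≤ t) : trace (Kt w (2 * t)) ≤ 5 / 4 := by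
  have hγ := h.pos
  set n := Fintype.card V with hndef
  have hn0 : (4 : ℝ) ≤ n := by exact_mod_cast hn
  have hnpos : (0 : ℝ) < n := by linarith
  have hlog : 1 ≤ Real.log n := by
    have h1 : Real.log 4 ≤ Real.log n := Real.log_le_log (by norm_num) hn0
    have h2 : (1 : ℝ) ≤ Real.log 4 := by
      rw [Real.le_log_iff_exp_le (by norm_num)]
      have := Real.exp_one_lt_d9
      linarith
    linarith
  obtain ⟨R, hR, hRc⟩ := exists_blocks V
  rw [← hndef] at hRc
  set m := n / 4 with hm
  have hm1 : 1 ≤ m := by omega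
  have hmn : m ≤ n := by omega
  -- level energies
  have hc : ∀ k : ℕ, k + m ≤ n → ∀ j : ℕ, 1 ≤ j → j ≤ k → ∀ f ∈ Vl V j, Orth f (Vl V (j - 1)) →
      γ / 40 * j * nsq f ≤ En w f := by
    intro k hk j hj hjk f hf ho
    exact level_energy_w h hn j hj (by omega) hf ho
  set T : ℝ := 120 * Real.log n / γ with hT
  have hT0 : 0 ≤ T := by positivity
  have hTc : γ / 40 * T = 3 * Real.log n := by
    rw [hT]; field_simp; ring
  -- first trace bound
  have hA : ∀ i, trace (Kt w T * PF (R i)ᶜ) ≤ 2 := by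
    intro i
    have hcard : ((R i)ᶜ).card = n - m := by
      rw [Finset.card_compl, hRc]
    have h1 := trace_PF (w := w) (by omega) (R i)ᶜ (γ / 40)
      (by rw [hcard]; exact hc (n - m) (by omega)) h.nonneg hT0
    rw [hTc, ← hndef] at h1
    refine h1.trans ?_
    refine (pow_le_exp n (Real.exp_nonneg _)).trans ?_
    have h2 : (n : ℝ) ^ 2 * Real.exp (-(3 * Real.log n)) = 1 / n := by
      have : Real.exp (-(3 * Real.log n)) = ((n : ℝ) ^ 3)⁻¹ := by
        rw [Real.exp_neg]
        congr 1
        rw [show (3 : ℝ) * Real.log n = ((3 : ℕ) : ℝ) * Real.log n by norm_num,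
          Real.exp_nat_mul, Real.exp_log hnpos]
      rw [this]
      field_simp
    rw [h2]
    have h3 : (1 : ℝ) / n ≤ 1 / 4 := by
      apply one_div_le_one_div_of_le <;> linarith
    have h4 : Real.exp (1 / n) ≤ Real.exp (1 / 4) := Real.exp_le_exp.mpr h3
    have h5 : Real.exp (1 / 4 : ℝ) ≤ 2 := by
      have h6 : Real.exp (1 / 4 : ℝ) ≤ Real.exp (Real.log 2) := by
        apply Real.exp_le_exp.mpr
        have := Real.log_two_gt_d9
        linarith
      rwa [Real.exp_log (by norm_num)] at h6
    linarith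
  -- second trace bound
  have hB : ∀ i, trace (Kt w T * Kap (R i)ᶜ) ≤ 2 ^ m * 2 := by
    intro i
    have h1 := trace_Kap (w := w) h.nonneg hT0 (R i)ᶜ
    have h2 := card_conjClasses_perm {x : V // x ∉ (R i)ᶜ}
    have h3 : Fintype.card {x : V // x ∉ (R i)ᶜ} = m := by
      rw [← hRc i, ← Fintype.card_coe]
      exact Fintype.card_congr (Equiv.subtypeEquivRight fun x => by simp)
    rw [h3] at h2
    have h4 : (Nat.card (ConjClasses (Perm {x : V // x ∉ (R i)ᶜ})) : ℝ) ≤ 2 ^ m := by
      exact_mod_cast h2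
    refine h1.trans ?_
    calc (Nat.card (ConjClasses (Perm {x : V // x ∉ (R i)ᶜ})) : ℝ) * trace (Kt w T * PF (R i)ᶜ)
        ≤ (Nat.card (ConjClasses (Perm {x : V // x ∉ (R i)ᶜ})) : ℝ) * 2 :=
          mul_le_mul_of_nonneg_left (hA i) (Nat.cast_nonneg _)
      _ ≤ 2 ^ m * 2 := by linarith
  have hC : trace (Kt w (2 * T)) ≤ Real.exp (2 * n) := by
    refine (trace_sq w R hR T _ hB).trans ?_
    have h1 : ((2 : ℝ) ^ m * 2) ^ 2 = 4 ^ (m + 1) := by
      rw [mul_pow, ← pow_mul, mul_comm m 2, pow_mul, pow_succ (4 : ℝ) m]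
      norm_num
    rw [h1]
    have h2 : (4 : ℝ) ^ (m + 1) ≤ 4 ^ n := pow_le_pow_right₀ (by norm_num) (by omega)
    refine h2.trans ?_
    have h3 : (4 : ℝ) ≤ Real.exp 2 := by
      have := Real.exp_one_gt_d9
      have h5 : Real.exp 2 = Real.exp 1 * Real.exp 1 := by
        rw [← Real.exp_add]; norm_num
      rw [h5]
      nlinarith
    calc (4 : ℝ) ^ n ≤ Real.exp 2 ^ n := pow_le_pow_left₀ (by norm_num) h3 n
      _ = Real.exp (2 * n) := by
        rw [← Real.exp_nat_mul]; congr 1; ring
  -- the end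
  have htT : 200 * Real.log n / γ ≤ t := by
    refine le_trans (le_of_eq ?_) ht
    field_simp
  have hTt : T ≤ t := by
    refine le_trans ?_ htT
    rw [hT]
    gcongr
    norm_num
  have hsplit := trace_split h (by omega) (n - m) (by omega) (γ / 40) (hc (n - m) (by omega))
    (T := 2 * T) (t := 2 * t - 2 * T) (by positivity) (by linarith)
  rw [show 2 * T + (2 * t - 2 * T) = 2 * t by ring, ← hndef] at hsplit
  refine hsplit.trans ?_
  have hfirst : (1 + (n : ℝ) * Real.exp (-(γ / 40 * (2 * t)))) ^ n ≤ 1 + 1 / 8 := by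
    refine (pow_le_exp n (Real.exp_nonneg _)).trans ?_
    apply exp_small (by positivity)
    have h1 : 10 * Real.log n ≤ γ / 40 * (2 * t) := by
      have h2 : γ * (200 * Real.log n / γ) ≤ γ * t := mul_le_mul_of_nonneg_left htT hγ.le
      have h3 : γ * (200 * Real.log n / γ) = 200 * Real.log n := by field_simp
      rw [h3] at h2
      linarith
    have h2 : Real.exp (-(γ / 40 * (2 * t))) ≤ Real.exp (-(4 * Real.log n)) := by
      apply Real.exp_le_exp.mpr
      linarith
    have h3 : Real.exp (-(4 * Real.log n)) = ((n : ℝ) ^ 4)⁻¹ := by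
      rw [Real.exp_neg]
      congr 1
      rw [show (4 : ℝ) * Real.log n = ((4 : ℕ) : ℝ) * Real.log n by norm_num,
        Real.exp_nat_mul, Real.exp_log hnpos]
    calc (n : ℝ) ^ 2 * Real.exp (-(γ / 40 * (2 * t))) ≤ (n : ℝ) ^ 2 * ((n : ℝ) ^ 4)⁻¹ := by
          apply mul_le_mul_of_nonneg_left _ (by positivity)
          linarith
      _ = ((n : ℝ) ^ 2)⁻¹ := by field_simp
      _ ≤ 1 / 16 := by
        rw [one_div]
        apply inv_anti₀ (by norm_num)
        nlinarith
  have hsecond : Real.exp (-((2 * t - 2 * T) * (γ * ((n - m : ℕ) + 1) /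
      (4 * Real.log (2 * n))))) * trace (Kt w (2 * T)) ≤ 1 / 8 := by
    have h1 : 12 * (n : ℝ) ≤ (2 * t - 2 * T) * (γ * ((n - m : ℕ) + 1) / (4 * Real.log (2 * n))) := by
      have hlog2 : Real.log (2 * n) ≤ 2 * Real.log n := by
        rw [Real.log_mul (by norm_num) (by positivity)]
        have : Real.log 2 ≤ Real.log n := Real.log_le_log (by norm_num) (by linarith)
        linarith
      have hlog2pos : 0 < Real.log (2 * n) := Real.log_pos (by linarith)
      have hk : (3 / 4 : ℝ) * n ≤ ((n - m : ℕ) : ℝ) + 1 := by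
        rw [Nat.cast_sub hmn]
        have : (m : ℝ) ≤ n / 4 := by
          rw [hm]
          exact Nat.cast_div_le
        linarith
      have h2t : 160 * Real.log n / γ ≤ 2 * t - 2 * T := by
        have : 160 * Real.log n / γ = 2 * (200 * Real.log n / γ) - 2 * T := by
          rw [hT]; ring
        rw [this]; linarith
      have hq : γ * ((3 / 4 : ℝ) * n) / (4 * (2 * Real.log n)) ≤
          γ * ((n - m : ℕ) + 1) / (4 * Real.log (2 * n)) := by
        apply div_le_div₀ (by positivity)
        · exact mul_le_mul_of_nonneg_left hk hγ.le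
        · positivity
        · linarith
      calc 12 * (n : ℝ) ≤ 160 * Real.log n / γ * (γ * ((3 / 4 : ℝ) * n) / (4 * (2 * Real.log n))) := by
            have : 160 * Real.log n / γ * (γ * ((3 / 4 : ℝ) * n) / (4 * (2 * Real.log n))) =
                15 * n := by
              have : Real.log n ≠ 0 := by linarith
              field_simp
              ring
            rw [this]; linarith
        _ ≤ (2 * t - 2 * T) * (γ * ((n - m : ℕ) + 1) / (4 * Real.log (2 * n))) := by
            apply mul_le_mul h2t hq (by positivity)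
            refine le_trans ?_ h2t
            positivity
    have h2 : Real.exp (-((2 * t - 2 * T) * (γ * ((n - m : ℕ) + 1) / (4 * Real.log (2 * n))))) ≤
        Real.exp (-(12 * n)) := by
      apply Real.exp_le_exp.mpr
      linarith
    calc Real.exp (-((2 * t - 2 * T) * (γ * ((n - m : ℕ) + 1) /
          (4 * Real.log (2 * n))))) * trace (Kt w (2 * T))
        ≤ Real.exp (-((2 * t - 2 * T) * (γ * ((n - m : ℕ) + 1) /
          (4 * Real.log (2 * n))))) * Real.exp (2 * n) :=
          mul_le_mul_of_nonneg_left hC (Real.exp_nonneg _)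
      _ ≤ Real.exp (-(12 * n)) * Real.exp (2 * n) :=
          mul_le_mul_of_nonneg_right h2 (Real.exp_nonneg _)
      _ = Real.exp (-(10 * n)) := by rw [← Real.exp_add]; congr 1; ring
      _ ≤ 1 / 8 := by
        rw [Real.exp_neg, one_div]
        apply inv_anti₀ (by norm_num)
        have := Real.add_one_le_exp (10 * (n : ℝ))
        linarith
  linarith

/-- case `n ≤ 3` -/
private theorem small {V : Type} [Fintype V] [DecidableEq V] {w : V → V → ℝ} {γ : ℝ}
    (h : Gap w γ) (hn : 2 ≤ Fintype.card V) (hn3 : Fintype.card V ≤ 3) {t : ℝ}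
    (ht : 200 * (1 / γ) * Real.log (Fintype.card V) ≤ t) : trace (Kt w (2 * t)) ≤ 5 / 4 := by
  have hγ := h.pos
  set n := Fintype.card V with hndef
  have hn0 : (2 : ℝ) ≤ n := by exact_mod_cast hn
  have hn3' : (n : ℝ) ≤ 3 := by exact_mod_cast hn3
  have hnpos : (0 : ℝ) < n := by linarith
  have hlog : 1 / 2 ≤ Real.log n := by
    have h1 : Real.log 2 ≤ Real.log n := Real.log_le_log (by norm_num) hn0
    have := Real.log_two_gt_d9
    linarith
  have htT : 200 * Real.log n / γ ≤ t := by
    refine le_trans (le_of_eq ?_) ht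
    field_simp
  have ht0 : 0 < t := lt_of_lt_of_le (by positivity) htT
  have hsplit := trace_split h hn 0 (by omega) (10 / t)
    (by intro j h1 h2; omega) (T := 0) (t := 2 * t) le_rfl (by linarith)
  rw [show 0 + 2 * t = 2 * t by ring, ← hndef] at hsplit
  refine hsplit.trans ?_
  have hK : trace (Kt w 0) ≤ 6 := by
    have h1 : Kt w 0 = 1 := by
      unfold Kt
      rw [zero_smul, neg_zero, NormedSpace.exp_zero]
    rw [h1, Matrix.trace_one, Fintype.card_perm, ← hndef]
    have h2 : n.factorial ≤ Nat.factorial 3 := Nat.factorial_le hn3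
    have h3 : Nat.factorial 3 = 6 := rfl
    rw [h3] at h2
    exact_mod_cast h2
  have hfirst : (1 + (n : ℝ) * Real.exp (-(10 / t * (2 * t)))) ^ n ≤ 1 + 1 / 8 := by
    refine (pow_le_exp n (Real.exp_nonneg _)).trans ?_
    apply exp_small (by positivity)
    have h1 : 10 / t * (2 * t) = 20 := by field_simp; norm_num
    rw [h1]
    have h2 : Real.exp (-20 : ℝ) ≤ 1 / 144 := by
      have h3 : (2 : ℝ) ≤ Real.exp 1 := by
        have := Real.exp_one_gt_d9
        linarith
      have h4 : (2 : ℝ) ^ 20 ≤ Real.exp 20 := by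
        have h5 : Real.exp 20 = Real.exp 1 ^ 20 := by
          rw [← Real.exp_nat_mul]; norm_num
        rw [h5]
        exact pow_le_pow_left₀ (by norm_num) h3 20
      rw [Real.exp_neg, one_div]
      apply inv_anti₀ (by norm_num)
      refine le_trans ?_ h4
      norm_num
    have h3 : (n : ℝ) ^ 2 ≤ 9 := by nlinarith
    calc (n : ℝ) ^ 2 * Real.exp (-20) ≤ 9 * (1 / 144) :=
          mul_le_mul h3 h2 (Real.exp_nonneg _) (by norm_num)
      _ = 1 / 16 := by norm_num
  have hsecond : Real.exp (-(2 * t * (γ * (((0 : ℕ) : ℝ) + 1) /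
      (4 * Real.log (2 * n))))) * trace (Kt w 0) ≤ 1 / 8 := by
    have h1 : (50 : ℝ) ≤ 2 * t * (γ * (((0 : ℕ) : ℝ) + 1) / (4 * Real.log (2 * n))) := by
      have hlog2 : Real.log (2 * n) ≤ 2 * Real.log n := by
        rw [Real.log_mul (by norm_num) (by positivity)]
        have : Real.log 2 ≤ Real.log n := Real.log_le_log (by norm_num) (by linarith)
        linarith
      have hlog2pos : 0 < Real.log (2 * n) := Real.log_pos (by linarith)
      have hlogpos : 0 < Real.log n := by linarith
      rw [Nat.cast_zero, zero_add, mul_one]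
      calc (50 : ℝ) = 2 * (200 * Real.log n / γ) * (γ / (4 * (2 * Real.log n))) := by
            field_simp
            norm_num
        _ ≤ 2 * t * (γ / (4 * Real.log (2 * n))) := by
            apply mul_le_mul
            · linarith
            · apply div_le_div_of_nonneg_left hγ.le (by positivity)
              linarith
            · positivity
            · positivity
    have h2 : Real.exp (-(2 * t * (γ * (((0 : ℕ) : ℝ) + 1) / (4 * Real.log (2 * n))))) ≤
        1 / 48 := by
      have h3 : Real.exp (-(2 * t * (γ * (((0 : ℕ) : ℝ) + 1) / (4 * Real.log (2 * n))))) ≤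
          Real.exp (-50) := by
        apply Real.exp_le_exp.mpr
        linarith
      refine h3.trans ?_
      rw [Real.exp_neg, one_div]
      apply inv_anti₀ (by norm_num)
      have := Real.add_one_le_exp (50 : ℝ)
      linarith
    calc Real.exp (-(2 * t * (γ * (((0 : ℕ) : ℝ) + 1) / (4 * Real.log (2 * n))))) *
          trace (Kt w 0)
        ≤ Real.exp (-(2 * t * (γ * (((0 : ℕ) : ℝ) + 1) / (4 * Real.log (2 * n))))) * 6 :=
          mul_le_mul_of_nonneg_left hK (Real.exp_nonneg _)
      _ ≤ 1 / 48 * 6 := mul_le_mul_of_nonneg_right h2 (by norm_num)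
      _ = 1 / 8 := by norm_num
  linarith

/-- IP-F2 (real analysis; uses everything above) -/
theorem trace_final : ∃ C : ℝ, 0 < C ∧ ∀ (V : Type) [Fintype V] [DecidableEq V]
    (w : V → V → ℝ) (γ : ℝ), Gap w γ → 2 ≤ Fintype.card V → ∀ t : ℝ,
    C * (1 / γ) * Real.log (Fintype.card V) ≤ t → trace (Kt w (2 * t)) ≤ 5 / 4 := by
  refine ⟨200, by norm_num, ?_⟩
  intro V _ _ w γ h hn t ht
  by_cases h4 : 4 ≤ Fintype.card V
  · exact large h h4 ht
  · exact small h hn (by omega) ht

end Pool.Agent.Helper57.IP
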