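import Pool.Agent.Helper91.IP.L7

/-!
# Project IP, piece G5: the main theorem
-/

set_option autoImplicit false

namespace Pool.Agent.Helper54.IP

open Finset Equiv Matrix Pool.Agent.Helper91.IP

/-- IP-G5 (uses F2, G1, G2, G3, G4) -/
theorem main : ∃ C : ℝ, ∀ (V : Type) [Fintype V] [DecidableEq V] (G : SimpleGraph V)
    [DecidableRel G.Adj], G.Connected → 2 ≤ Fintype.card V →
    tmix (ip G) ≤ C * trel (srw G) * Real.log (Fintype.card V) ∧
    tmix (ip G) ≤ C * tmix (srw G) * Real.log (Fintype.card V) := by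
  obtain ⟨C0, hC0, hmain⟩ := trace_final
  have hlog2 : 0 < Real.log 2 := Real.log_pos (by norm_num)
  have hlog2' : Real.log 2 ≤ 1 := by
    have := Real.log_le_sub_one_of_pos (show (0 : ℝ) < 2 by norm_num)
    linarith
  refine ⟨C0 / Real.log 2, ?_⟩
  intro V _ _ G _ hG hn
  obtain ⟨hgap, _⟩ := gap_srw G hG hn
  set γ := gapR (srw G) with hγ
  have hγpos : 0 < γ := hgap.pos
  have hn1 : (1 : ℝ) ≤ (Fintype.card V : ℝ) := by
    have : 1 ≤ Fintype.card V := by omega
    exact_mod_cast this
  have hlog : 0 ≤ Real.log (Fintype.card V) := Real.log_nonneg hn1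
  have htrel : trel (srw G) = 1 / γ := rfl
  have htrel0 : 0 ≤ trel (srw G) := by rw [htrel]; positivity
  set t0 : ℝ := C0 * (1 / γ) * Real.log (Fintype.card V) with ht0
  have ht0nn : 0 ≤ t0 := by positivity
  have htr := hmain V (srw G) γ hgap hn t0 le_rfl
  have key : tmix (ip G) ≤ t0 := by
    apply csInf_le
    · exact ⟨0, fun t ht => ht.1⟩
    · refine ⟨ht0nn, fun σ => ?_⟩
      obtain ⟨e, he⟩ := ker_ip G t0
      have h1 : tv (ip G) t0 σ = (1 / 2) * ∑ s', |Kt (srw G) t0 (e σ) s' -
          1 / (Nat.factorial (Fintype.card V) : ℝ)| := by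
        unfold tv
        congr 1
        rw [← Equiv.sum_comp e]
        refine sum_congr rfl fun σ' _ => ?_
        rw [he σ σ', Fintype.card_equiv (Fintype.equivFin V)]
      rw [h1]
      refine (tv_Kt (srw G) hgap.nonneg ht0nn (e σ)).trans ?_
      have h2 : Real.sqrt (trace (Kt (srw G) (2 * t0)) - 1) ≤ Real.sqrt ((1 / 2) ^ 2) :=
        Real.sqrt_le_sqrt (by norm_num; linarith)
      rw [Real.sqrt_sq (by norm_num)] at h2
      linarith
  constructor
  · refine key.trans ?_
    rw [ht0, htrel]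
    have h3 : C0 ≤ C0 / Real.log 2 := by
      rw [le_div_iff₀ hlog2]
      nlinarith
    have h4 : 0 ≤ 1 / γ * Real.log (Fintype.card V) := by positivity
    calc C0 * (1 / γ) * Real.log (Fintype.card V)
        = C0 * (1 / γ * Real.log (Fintype.card V)) := by ring
      _ ≤ C0 / Real.log 2 * (1 / γ * Real.log (Fintype.card V)) :=
        mul_le_mul_of_nonneg_right h3 h4
      _ = C0 / Real.log 2 * (1 / γ) * Real.log (Fintype.card V) := by ring
  · refine key.trans ?_
    have h5 := trel_le_tmix G hG hn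
    rw [htrel] at h5
    have h6 : 1 / γ ≤ tmix (srw G) / Real.log 2 := by
      rw [le_div_iff₀ hlog2]
      exact h5
    have h7 : 0 ≤ C0 * Real.log (Fintype.card V) := by positivity
    calc t0 = C0 * Real.log (Fintype.card V) * (1 / γ) := by rw [ht0]; ring
      _ ≤ C0 * Real.log (Fintype.card V) * (tmix (srw G) / Real.log 2) :=
        mul_le_mul_of_nonneg_left h6 h7
      _ = C0 / Real.log 2 * tmix (srw G) * Real.log (Fintype.card V) := by ring

end Pool.Agent.Helper54.IP
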